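import Pool.Agent.Lib.MP_b5021c_nt.E1.H43.Cln
import Pool.Agent.Lib.MP_b5021c_nt.B.H76.E1Cf0

/-!
# MP_b5021c_nt, E1 for all `θ ≥ 2`: row NZR

If the closed element is zero, then the normal derivative vanishes.
-/

namespace Pool.Agent.B5.Nr.Nzr

open Submodule Module Pool.Agent.B5.H76
open scoped LaurentPolynomial

section inj

variable {V : Type} [AddCommGroup V] [Module ℚ V]

omit [Module ℚ V] in
theorem val_smul (a : ℂ) (e : V →₀ ℂ) (χ : AddChar V Circle) :
    E1.val (a • e) χ = a * E1.val e χ := by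
  unfold E1.val
  rw [Finsupp.sum_smul_index (fun _ => zero_mul _), Finsupp.mul_sum]
  exact Finsupp.sum_congr fun v _ => mul_assoc _ _ _

theorem val_zero_coef {e : V →₀ ℂ} (h : ∀ χ, E1.val e χ = 0) (a : ℂ) : 0 ≤ (a * e 0).re := by
  classical
  have hT : ∀ χ, (0 : ℝ) ≤ (E1.val (a • e) χ).re := by
    intro χ
    rw [val_smul, h, mul_zero, Complex.zero_re]
  have h1 := E1.avg_sub hT (⊥ : Submodule ℚ V) 0
  have h2 : ((a • e).filter fun v => v ∈ (⊥ : Submodule ℚ V)) =
      Finsupp.single 0 (a * e 0) := by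
    ext1 v
    rw [Finsupp.filter_apply, Finsupp.single_apply]
    by_cases hv : v = 0
    · rw [if_pos ((Submodule.mem_bot ℚ).mpr hv), if_pos hv.symm, hv]
      rfl
    · rw [if_neg (fun h => hv ((Submodule.mem_bot ℚ).mp h)), if_neg (fun h => hv h.symm)]
  have h3 : ((a • e).filter fun v => v ∈ (⊥ : Submodule ℚ V)) =
      @Finsupp.filter V ℂ _ (fun v => v ∈ (⊥ : Submodule ℚ V))
        (fun a => Classical.propDecidable _) (a • e) := by
    ext1 v
    rw [Finsupp.filter_apply]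
  rw [← h3, h2] at h1
  unfold E1.val at h1
  rw [Finsupp.sum_single_index (zero_mul _)] at h1
  simpa using h1

theorem coef_zero {e : V →₀ ℂ} (h : ∀ χ, E1.val e χ = 0) : e 0 = 0 := by
  have h1 := val_zero_coef h (-(starRingEnd ℂ) (e 0))
  rw [neg_mul, ← Complex.normSq_eq_conj_mul_self, Complex.neg_re, Complex.ofReal_re] at h1
  have h2 := Complex.normSq_nonneg (e 0)
  exact Complex.normSq_eq_zero.1 (by linarith)

omit [Module ℚ V] in
theorem val_shift (e : V →₀ ℂ) (v : V) (χ : AddChar V Circle) :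
    E1.val (e.mapDomain fun u => u - v) χ = E1.val e χ * ((χ (-v) : Circle) : ℂ) := by
  unfold E1.val
  rw [Finsupp.sum_mapDomain_index (fun _ => zero_mul _) (fun _ _ _ => add_mul _ _ _),
    Finsupp.sum_mul]
  refine Finsupp.sum_congr fun u _ => ?_
  rw [mul_assoc, ← Circle.coe_mul, ← AddChar.map_add_eq_mul, sub_eq_add_neg]

theorem val_inj {e : V →₀ ℂ} (h : ∀ χ, E1.val e χ = 0) : e = 0 := by
  ext v
  have h1 : (e.mapDomain fun u => u - v) 0 = 0 := coef_zero fun χ => by
    rw [val_shift, h, zero_mul]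
  have h2 : (e.mapDomain fun u => u - v) (v - v) = e v :=
    Finsupp.mapDomain_apply (fun a b hab => sub_left_injective hab) e v
  rw [sub_self] at h2
  rw [← h2, h1]
  rfl

/-- A trigonometric polynomial over `RO ℤ` with zero values is zero. -/
theorem vz_inj {e : V →₀ RO ℤ} (h : ∀ (z : Circle) (χ : AddChar V Circle), vz e z χ = 0) :
    e = 0 := by
  ext1 v
  refine H71.evR_zero H07.zfi _ fun z => ?_
  have h1 : cz0 e z = 0 := val_inj fun χ => by
    rw [cz0_val, h]
  rw [← cz0_apply, h1]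
  rfl

end inj

section

variable {V : Type} [AddCommGroup V] [Module ℚ V]

/-- The derivative along `l`. -/
noncomputable def dl (l : Dual ℚ V) (c : V →₀ RO ℤ) : V →₀ RO ℤ :=
  Finsupp.onFinset c.support (fun v => ⌊l v⌋ • c v) (fun v hv => by
    rw [Finsupp.mem_support_iff]
    intro h
    exact hv (by rw [h, smul_zero]))

theorem dl_apply (l : Dual ℚ V) (c : V →₀ RO ℤ) (v : V) : dl l c v = ⌊l v⌋ • c v := rfl

theorem es_dl (l : Dual ℚ V) (c : V →₀ RO ℤ) : Es (dl l c) ⊆ Es c := fun v hv =>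
  ⟨hv.1, fun h => hv.2 (by rw [dl_apply, h, smul_zero])⟩

theorem supp_dl (l : Dual ℚ V) (c : V →₀ RO ℤ) : (dl l c).support ⊆ c.support :=
  Finsupp.support_onFinset_subset

theorem vf_dl {l : Dual ℚ V} {c : V →₀ RO ℤ} {γ : V} (h : Vf (Es c) γ l) : Vf (Es (dl l c)) γ l :=
  ⟨h.1, fun v hv => h.2 v (es_dl l c hv)⟩

theorem dl_neg {l : Dual ℚ V} {c : V →₀ RO ℤ} {γ : V} (hs : ∀ v, c (-v) = rsh (c v))
    (h : Vf (Es c) γ l) (v : V) : dl l c (-v) = -rsh (dl l c v) := by
  rw [dl_apply, dl_apply, hs]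
  by_cases hv : v ∈ c.support
  · have e0 : ⌊(0 : ℚ)⌋ = 0 := Int.floor_zero
    have e1 : ⌊(1 : ℚ)⌋ = 1 := Int.floor_one
    have e2 : ⌊(-1 : ℚ)⌋ = -1 := by norm_num
    rcases H43.mem_cases h hv with h | h | h
    · rw [map_neg, h, neg_zero, e0, zero_smul, zero_smul, map_zero, neg_zero]
    · rw [map_neg, h, e1, e2, one_smul, neg_smul, one_smul]
    · rw [map_neg, h, neg_neg, e1, e2, neg_smul, one_smul, one_smul, map_neg, neg_neg]
  · rw [Finsupp.notMem_support_iff.1 hv, map_zero, smul_zero, smul_zero, map_zero, neg_zero]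

omit [Module ℚ V] in
theorem vz_sum (c : V →₀ RO ℤ) {S : Finset V} (hS : c.support ⊆ S) (z : Circle)
    (χ : AddChar V Circle) : vz c z χ = ∑ v ∈ S, evR z (c v) * (χ v : ℂ) := by
  unfold vz
  exact Finsupp.sum_of_support_subset _ hS _ (fun v _ => by rw [map_zero, zero_mul])

theorem conj_circle (w : Circle) : (starRingEnd ℂ) (w : ℂ) = ((w⁻¹ : Circle) : ℂ) :=
  (Circle.coe_inv_eq_conj w).symm

/-- The derivative has imaginary values. -/
theorem dl_re {l : Dual ℚ V} {c : V →₀ RO ℤ} {γ : V} (hs : ∀ v, c (-v) = rsh (c v))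
    (h : Vf (Es c) γ l) (z : Circle) (χ : AddChar V Circle) : (vz (dl l c) z χ).re = 0 := by
  classical
  have key : (starRingEnd ℂ) (vz (dl l c) z χ) = -vz (dl l c) z χ := by
    set d := dl l c with hd
    have h1 : (starRingEnd ℂ) (vz d z χ) = ∑ v ∈ d.support, -(evR z (d (-v)) * ((χ (-v) : Circle) : ℂ)) := by
      unfold vz Finsupp.sum
      rw [map_sum]
      refine Finset.sum_congr rfl fun v _ => ?_
      rw [map_mul, ← H36.evR_rsh, conj_circle, hd, dl_neg hs h, map_neg, neg_mul, neg_neg,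
        AddChar.map_neg_eq_inv]
    rw [h1, Finset.sum_neg_distrib, neg_inj]
    have h2 : ∀ v, v ∈ d.support ↔ -v ∈ d.support := by
      have h3 : ∀ v, v ∈ d.support → -v ∈ d.support := by
        intro v hv
        rw [Finsupp.mem_support_iff] at hv ⊢
        intro h4
        apply hv
        have h5 := dl_neg hs h (-v)
        rw [neg_neg, ← hd, h4, map_zero, neg_zero] at h5
        exact h5
      exact fun v => ⟨h3 v, fun h4 => by simpa using h3 _ h4⟩
    unfold vz Finsupp.sum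
    exact Finset.sum_bij (fun v _ => -v) (fun v hv => (h2 v).1 hv) (fun a _ b _ hab => neg_inj.1 hab)
      (fun b hb => ⟨-b, (h2 b).1 hb, neg_neg b⟩) (fun v _ => rfl)
  have h4 := congrArg Complex.re key
  rw [Complex.conj_re, Complex.neg_re] at h4
  linarith

theorem hasDeriv {l : Dual ℚ V} {c : V →₀ RO ℤ} {γ : V} (h : Vf (Es c) γ l) (z : Circle)
    (χ : AddChar V Circle) (t : ℝ) :
    HasDerivAt (fun s : ℝ => (vz c z (H43.chx l γ s χ)).re)
      (-(vz (dl l c) z (H43.chx l γ t χ)).im) t := by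
  have h1 : ∀ v ∈ c.support, HasDerivAt (fun s : ℝ => evR z (c v) *
      ((H43.chx l γ s χ v : Circle) : ℂ))
      (Complex.I * (evR z (dl l c v) * ((H43.chx l γ t χ v : Circle) : ℂ))) t := by
    intro v hv
    have h2 : ∀ s : ℝ, ((H43.chx l γ s χ v : Circle) : ℂ) = ((χ (v - l v • γ) : Circle) : ℂ) *
        Complex.exp (((s * ((l v : ℚ) : ℝ) : ℝ) : ℂ) * Complex.I) := by
      intro s
      rw [H43.chx_apply, Circle.coe_mul, Circle.coe_exp]
    have h3 : HasDerivAt (fun s : ℝ => ((s * ((l v : ℚ) : ℝ) : ℝ) : ℂ) * Complex.I)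
        (((((l v : ℚ) : ℝ)) : ℂ) * Complex.I) t := by
      have h4 : HasDerivAt (fun s : ℝ => s * ((l v : ℚ) : ℝ)) ((l v : ℚ) : ℝ) t := by
        simpa using (hasDerivAt_id t).mul_const ((l v : ℚ) : ℝ)
      exact (h4.ofReal_comp).mul_const Complex.I
    have h5 := (h3.cexp.const_mul ((χ (v - l v • γ) : Circle) : ℂ)).const_mul (evR z (c v))
    have h6 : evR z (dl l c v) = (((l v : ℚ) : ℝ) : ℂ) * evR z (c v) := by
      rw [dl_apply, map_zsmul]
      have e0 : ⌊(0 : ℚ)⌋ = 0 := Int.floor_zero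
      have e1 : ⌊(1 : ℚ)⌋ = 1 := Int.floor_one
      have e2 : ⌊(-1 : ℚ)⌋ = -1 := by norm_num
      rcases H43.mem_cases h hv with h | h | h
      · rw [h, e0]; simp
      · rw [h, e1]; simp
      · rw [h, e2]; simp
    have h7 : (fun s : ℝ => evR z (c v) * ((H43.chx l γ s χ v : Circle) : ℂ)) =
        fun s : ℝ => evR z (c v) * (((χ (v - l v • γ) : Circle) : ℂ) *
          Complex.exp (((s * ((l v : ℚ) : ℝ) : ℝ) : ℂ) * Complex.I)) := by
      funext s
      rw [h2]
    rw [h7, h6, h2]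
    refine h5.congr_deriv ?_
    ring
  have h8 : HasDerivAt (fun s : ℝ => vz c z (H43.chx l γ s χ))
      (Complex.I * vz (dl l c) z (H43.chx l γ t χ)) t := by
    have h9 : (fun s : ℝ => vz c z (H43.chx l γ s χ)) = fun s : ℝ => ∑ v ∈ c.support,
        evR z (c v) * ((H43.chx l γ s χ v : Circle) : ℂ) := rfl
    rw [h9, vz_sum (dl l c) (supp_dl l c), Finset.mul_sum]
    exact HasDerivAt.fun_sum h1
  have h10 := Complex.reCLM.hasFDerivAt.comp_hasDerivAt t h8
  have h11 : Complex.reCLM (Complex.I * vz (dl l c) z (H43.chx l γ t χ)) =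
      -(vz (dl l c) z (H43.chx l γ t χ)).im := by
    simp
  rw [h11] at h10
  exact h10

/-- If the closed element is zero then the derivative closes to zero. -/
theorem clo_dl {l : Dual ℚ V} {c : V →₀ RO ℤ} {γ : V} (ε : ℤˣ) (m : ℤ) (hc : NP c)
    (h : Vf (Es c) γ l) (h0 : clo l γ (ld ε m) c = 0) : clo l γ (ld ε m) (dl l c) = 0 := by
  refine vz_inj fun z χ => ?_
  have h1 : ‖evR z ((ld ε m : (RO ℤ)ˣ) : RO ℤ)‖ = 1 :=
    H36.norm_evR_unit z _ (Units.isUnit _)
  let w : Circle := ⟨evR z ((ld ε m : (RO ℤ)ˣ) : RO ℤ), mem_sphere_zero_iff_norm.2 h1⟩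
  have hw : ((Circle.exp (Complex.arg (w : ℂ)) : Circle) : ℂ) =
      evR z ((ld ε m : (RO ℤ)ˣ) : RO ℤ) := by
    rw [Circle.exp_arg w]
  set t := Complex.arg (w : ℂ) with ht
  rw [H43.vz_clo l γ (ld ε m) (dl l c) (vf_dl h) z χ t hw]
  have h2 : vz c z (H43.chx l γ t χ) = 0 := by
    rw [← H43.vz_clo l γ (ld ε m) c h z χ t hw, h0]
    unfold vz
    exact Finsupp.sum_zero_index
  have h3 : IsLocalMin (fun s : ℝ => (vz c z (H43.chx l γ s χ)).re) t := by
    refine Filter.Eventually.of_forall fun s => ?_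
    show (vz c z (H43.chx l γ t χ)).re ≤ (vz c z (H43.chx l γ s χ)).re
    rw [h2, Complex.zero_re]
    exact hc.2 z _
  have h4 := h3.hasDerivAt_eq_zero (hasDeriv h z χ t)
  refine Complex.ext ?_ ?_
  · rw [dl_re hc.1 h, Complex.zero_re]
  · rw [Complex.zero_im]
    linarith

end

theorem nzr : NzrS := by
  intro V _ _ c γ l ε m hc hU hγ hl h0
  set y := ld ε m with hy
  have hcl := H43.cla V c γ l y hl
  have hd0 : clo l γ y (dl l c) = 0 := clo_dl ε m hc hl h0
  have hdl := H43.cla V (dl l c) γ l y (vf_dl hl)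
  have hγl : l γ = 1 := hl.1
  have A : ∀ u, l u = 0 → c (u + γ) * (y : RO ℤ) = c (u - γ) * ((y⁻¹ : (RO ℤ)ˣ) : RO ℤ) := by
    intro u hu
    have h1 := hdl.2 u hu
    have e0 : ⌊(0 : ℚ)⌋ = 0 := Int.floor_zero
    have e1 : ⌊(1 : ℚ)⌋ = 1 := Int.floor_one
    have e2 : ⌊(-1 : ℚ)⌋ = -1 := by norm_num
    have h2 : l (u + γ) = 1 := by rw [map_add, hu, hγl, zero_add]
    have h3 : l (u - γ) = -1 := by rw [map_sub, hu, hγl, zero_sub]
    rw [hd0, dl_apply, dl_apply, dl_apply, hu, h2, h3, e0, e1, e2, zero_smul, one_smul, neg_smul,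
      one_smul, zero_add, neg_mul, ← sub_eq_add_neg] at h1
    exact (sub_eq_zero.1 h1.symm)
  have B : ∀ u, l u = 0 → c u = -(c (u + γ) * (y : RO ℤ) + c (u + γ) * (y : RO ℤ)) := by
    intro u hu
    have h1 := hcl.2 u hu
    rw [h0, ← A u hu] at h1
    have h2 : (0 : V →₀ RO ℤ) u = 0 := rfl
    rw [h2, add_assoc] at h1
    exact eq_neg_of_add_eq_zero_left h1.symm
  have cancel : ∀ (p : RO ℤ) (x : (RO ℤ)ˣ), p * (x : RO ℤ) = 0 → p = 0 := by
    intro p x h
    have h1 := congrArg (· * ((x⁻¹ : (RO ℤ)ˣ) : RO ℤ)) h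
    simpa [mul_assoc] using h1
  have C : ∀ u, l u = 0 → u ≠ 0 → c (u + γ) = 0 ∧ c (u - γ) = 0 := by
    intro u hu hu0
    by_cases h1 : c (u + γ) = 0
    · refine ⟨h1, ?_⟩
      have h2 := A u hu
      rw [h1, zero_mul] at h2
      exact cancel _ _ h2.symm
    exfalso
    have h2 : c (u - γ) ≠ 0 := by
      intro h3
      have h4 := A u hu
      rw [h3, zero_mul] at h4
      exact h1 (cancel _ _ h4)
    have h3 : l (u + γ) = 1 := by rw [map_add, hu, hγl, zero_add]
    have h4 : l (u - γ) = -1 := by rw [map_sub, hu, hγl, zero_sub]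
    have h5 : u + γ ∈ Es c := ⟨fun h => by rw [h, map_zero] at h3; norm_num at h3, h1⟩
    have h6 : u - γ ∈ Es c := ⟨fun h => by rw [h, map_zero] at h4; norm_num at h4, h2⟩
    -- a functional with `l₁ u = 1`
    obtain ⟨f, hf⟩ : ∃ f : Dual ℚ V, f u ≠ 0 := by
      obtain ⟨f, hf⟩ := Module.exists_dual_forall_apply_ne_zero (K := ℚ) (fun _ : Unit => u)
        (fun _ => hu0)
      exact ⟨f, hf ()⟩
    let f₁ : Dual ℚ V := (f u)⁻¹ • f
    have hf₁ : f₁ u = 1 := by
      show (f u)⁻¹ * f u = 1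
      exact inv_mul_cancel₀ hf
    let f₂ : Dual ℚ V := f₁ - (f₁ γ) • l
    have hf₂u : f₂ u = 1 := by
      show f₁ u - (f₁ γ) * l u = 1
      rw [hu, mul_zero, sub_zero, hf₁]
    have hf₂γ : f₂ γ = 0 := by
      show f₁ γ - (f₁ γ) * l γ = 0
      rw [hγl, mul_one, sub_self]
    let g : Dual ℚ V := (1 / 2 : ℚ) • (l + f₂)
    let g' : Dual ℚ V := (1 / 2 : ℚ) • (f₂ - l)
    have hgu : g u = 1 / 2 := by
      show (1 / 2 : ℚ) * (l u + f₂ u) = 1 / 2
      rw [hu, hf₂u]; norm_num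
    have hgγ : g γ = 1 / 2 := by
      show (1 / 2 : ℚ) * (l γ + f₂ γ) = 1 / 2
      rw [hγl, hf₂γ]; norm_num
    have hgu' : g' u = 1 / 2 := by
      show (1 / 2 : ℚ) * (f₂ u - l u) = 1 / 2
      rw [hu, hf₂u]; norm_num
    have hgγ' : g' γ = -(1 / 2) := by
      show (1 / 2 : ℚ) * (f₂ γ - l γ) = -(1 / 2)
      rw [hγl, hf₂γ]; norm_num
    have hg1 : g (u + γ) = 1 := by rw [map_add, hgu, hgγ]; norm_num
    have hg2 : g (u - γ) = 0 := by rw [map_sub, hgu, hgγ]; norm_num
    have hg3 : g' (u + γ) = 0 := by rw [map_add, hgu', hgγ']; norm_num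
    have hg4 : g' (u - γ) = 1 := by rw [map_sub, hgu', hgγ']; norm_num
    have hind : LinearIndepOn ℚ id ({u + γ, u - γ} : Set V) := by
      rw [LinearIndepOn.pair_iff _ (show u + γ ≠ u - γ by
        intro h; rw [h, h4] at h3; norm_num at h3)]
      intro s t hst
      have k1 := congrArg g hst
      have k2 := congrArg g' hst
      simp only [id, map_add, map_smul, map_zero, smul_eq_mul] at k1 k2
      rw [← map_add, hg1, hg2] at k1
      rw [← map_add, hg3, hg4] at k2
      constructor <;> linarith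
    have hmem : γ ∈ span ℚ ({u + γ, u - γ} : Set V) := by
      have h7 : γ = (1 / 2 : ℚ) • (u + γ) - (1 / 2 : ℚ) • (u - γ) := by
        rw [← smul_sub]
        have h8 : u + γ - (u - γ) = (2 : ℚ) • γ := by
          rw [two_smul]; abel
        rw [h8, smul_smul]
        norm_num
      have h8 : (1 / 2 : ℚ) • (u + γ) - (1 / 2 : ℚ) • (u - γ) ∈
          span ℚ ({u + γ, u - γ} : Set V) :=
        Submodule.sub_mem _
          (Submodule.smul_mem _ _ (subset_span (Set.mem_insert _ _)))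
          (Submodule.smul_mem _ _ (subset_span (Set.mem_insert_of_mem _ rfl)))
      rw [← h7] at h8
      exact h8
    have h9 := hU ({u + γ, u - γ} : Set V) (by
        rintro v (rfl | hv)
        · exact h5
        · rw [Set.mem_singleton_iff] at hv
          rw [hv]
          exact h6) hind g (u + γ) (Set.mem_insert _ _) hg1 (by
        rintro b (rfl | hb) hne
        · exact absurd rfl hne
        · rw [Set.mem_singleton_iff] at hb
          rw [hb]
          exact hg2) γ hγ hmem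
    rw [hgγ] at h9
    norm_num at h9
  have D : ∀ v ∈ Es c, v = γ ∨ v = -γ := by
    rintro v ⟨hv0, hv⟩
    rcases hl.2 v ⟨hv0, hv⟩ with h | h | h
    · exfalso
      have h1 := B v h
      rw [(C v h hv0).1, zero_mul, add_zero, neg_zero] at h1
      exact hv h1
    · left
      by_contra h1
      have h2 : v - γ ≠ 0 := fun h => h1 (sub_eq_zero.1 h)
      have h3 : l (v - γ) = 0 := by rw [map_sub, h, hγl, sub_self]
      have h4 := (C _ h3 h2).1
      rw [sub_add_cancel] at h4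
      exact hv h4
    · right
      by_contra h1
      have h2 : v + γ ≠ 0 := fun h => h1 (eq_neg_of_add_eq_zero_left h)
      have h3 : l (v + γ) = 0 := by rw [map_add, h, hγl, neg_add_cancel]
      have h4 := (C _ h3 h2).2
      rw [add_sub_cancel_right] at h4
      exact hv h4
  have hsp : span ℚ (Es c) = span ℚ {γ} := by
    refine le_antisymm ?_ ?_
    · rw [span_le]
      intro v hv
      rcases D v hv with rfl | rfl
      · exact subset_span rfl
      · exact Submodule.neg_mem _ (subset_span rfl)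
    · exact span_mono (Set.singleton_subset_iff.2 hγ)
  have hA0 := A 0 (map_zero l)
  rw [zero_add, zero_sub] at hA0
  have hB0 := B 0 (map_zero l)
  rw [zero_add] at hB0
  have hcf := (e1r_cf0 V c hc).1
  refine ⟨?_, -(c γ * (y : RO ℤ)), ?_, ?_, ?_, ?_⟩
  · unfold rkc
    rw [hsp]
    exact finrank_span_singleton hγ.1
  · rw [hB0]
    ring
  · intro h
    exact hγ.2 (cancel _ _ (neg_eq_zero.1 h))
  · rw [map_neg, map_mul, hy, H43.rsh_ld, ← hy, ← hc.1, ← hA0]
  · intro z
    have h1 := hcf z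
    rw [hB0, map_neg, map_add] at h1
    rw [map_neg]
    have h2 : (-(evR z (c γ * (y : RO ℤ)) + evR z (c γ * (y : RO ℤ)))).re =
      2 * (-(evR z (c γ * (y : RO ℤ)))).re := by
      rw [Complex.neg_re, Complex.add_re, Complex.neg_re]
      ring
    rw [h2] at h1
    linarith

end Pool.Agent.B5.Nr.Nzr

namespace Pool.Agent.B5.Nr

theorem nzr : NzrS := Nzr.nzr

end Pool.Agent.B5.Nr
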